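import Pool.Agent.H18.CGR.Stmts

set_option autoImplicit false

open Filter
open scoped Topology

namespace Pool.CGR

namespace H56PT1

theorem hd_map {m : ℕ} {E G : Type} [Zero E] [Zero G] (V : E → G) (hV : V 0 = 0) (i : Fin m)
    (u : List (Fin m)) (F : List (Fin m) → E) :
    V (hd i u F) = hd i u (fun u => V (F u)) := by
  unfold hd
  cases u with
  | nil => exact hV
  | cons a u' =>
    dsimp only
    split_ifs
    · rfl
    · exact hV

theorem summ {m : ℕ} {E : Type} [NormedAddCommGroup E] [NormedSpace ℂ E] [CompleteSpace E]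
    {k : Fin m → List (Fin m) → ℂ} (hk : Kb k) {F : List (Fin m) → E} {B : ℝ}
    (hB : ∀ u, ‖F u‖ ≤ B * 4 ^ u.length) (i : Fin m) (u : List (Fin m)) :
    Summable (fun v : List (Fin m) => k i v • F (v ++ u)) := by
  refine Summable.of_norm_bounded (g := fun v => (B * 4 ^ u.length) * (‖k i v‖ * 4 ^ v.length))
    ((hk i).1.mul_left _) fun v => ?_
  rw [norm_smul]
  calc ‖k i v‖ * ‖F (v ++ u)‖ ≤ ‖k i v‖ * (B * 4 ^ (v ++ u).length) :=
        mul_le_mul_of_nonneg_left (hB _) (norm_nonneg _)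
    _ = (B * 4 ^ u.length) * (‖k i v‖ * 4 ^ v.length) := by
        rw [List.length_append, pow_add]; ring

end H56PT1

open H56PT1 in
theorem pt1_thm (h_shl : SHLStmt) (h_fix : FIXStmt) (h_rrc : RRCStmt) (h_cmt : CMTStmt)
    (h_coe : COEStmt) (h_grd : GRDStmt) (h_eva : EVAStmt) (h_jdq : JDQStmt) : PT1Stmt := by
  intro m k hk hcy A _ τ hτ x hx hlaw
  obtain ⟨X, Y, hX, hY, hXb, hYb, hXY⟩ := h_shl m
  obtain ⟨F, hF⟩ := h_fix m k hk (E1 m) X (bb []) hX
  have hXe : ∀ i, X i (bb []) = Y i (bb []) := fun i => by rw [hXb, hYb]; rfl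
  have hR := h_rrc m k hk hcy (E1 m) X Y (bb []) F hX hY hXY hXe hF
  have hC : ∑ i, X i (F [i]) = ∑ i, Y i (F [i]) :=
    h_cmt m k hk hcy (E1 m) (fun i => X i) (fun i => Y i) (bb []) F hF hR
  have hcyc := h_coe m X Y hXb hYb (fun i => F [i]) hC
  obtain ⟨H, hH⟩ := h_grd m (fun i w => (F [i] : List (Fin m) → ℂ) w * (2 / 5) ^ w.length) (by
    intro a b u v huv
    have hl : u.length = v.length := by
      have := congrArg List.length huv
      simpa using this
    show (F [a] : List (Fin m) → ℂ) u * (2 / 5) ^ u.length =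
      (F [b] : List (Fin m) → ℂ) v * (2 / 5) ^ v.length
    rw [hcyc a b u v huv, hl])
  obtain ⟨V, hVb, hVs, hVX⟩ := h_eva m A x fun i => (hx i).trans (by norm_num)
  have hG : Sol k (fun i a => x i * a) 1 (fun u => V (F u)) := by
    obtain ⟨B, hB⟩ := hF.bdd
    refine ⟨?_, ⟨‖V‖ * B, fun u => ?_⟩, fun i u => ?_⟩
    · show V (F []) = 1
      rw [hF.nil, hVb]
      simp [ev]
    · calc ‖V (F u)‖ ≤ ‖V‖ * ‖F u‖ := V.le_opNorm _
        _ ≤ ‖V‖ * (B * 4 ^ u.length) := mul_le_mul_of_nonneg_left (hB u) (norm_nonneg _)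
        _ = ‖V‖ * B * 4 ^ u.length := by ring
    · show x i * V (F u) = V (F (i :: u)) + hd i u (fun u => V (F u)) +
        ∑' v : List (Fin m), k i v • V (F (v ++ u))
      rw [← hVX X hXb i (F u)]
      have h1 : X i (F u) = F (i :: u) + hd i u F + ∑' v : List (Fin m), k i v • F (v ++ u) :=
        hF.step i u
      rw [h1, map_add, map_add, V.map_tsum (summ hk hB i u), hd_map V (map_zero V)]
      simp only [map_smul]
  refine ⟨fun i => V (F [i]), H, fun i w => h_jdq m k hk A τ hτ x hx hlaw _ hG i w, fun i => ?_⟩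
  have h2 : (fun n => (H n).sum fun w r => r • cg x i w) =
      fun n => ∑ w ∈ wds m n, ((F [i] : List (Fin m) → ℂ) w * (2 / 5) ^ w.length) • ev x w := by
    funext n
    exact hH A x i n
  rw [h2]
  have h3 : Tendsto (fun n => wds m n) atTop atTop := by
    refine tendsto_atTop_finset_of_monotone ?_ fun w => ⟨w.length + 1, ?_⟩
    · intro a b hab w hw
      rw [mem_wds] at hw ⊢
      omega
    · rw [mem_wds]
      omega
  have h4 := hVs (F [i])
  rw [HasSum, SummationFilter.unconditional_filter] at h4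
  exact h4.comp h3

end Pool.CGR
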